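import Mathlib
import Pool.Agent.H354R3.OS.Elt

/-!
# MP_783066_gt: the smash product of orthogonal spectra is not fully homotopical

We give an orthogonal spectrum `X` and a stable equivalence `f : Y → Y'` of orthogonal spectra
such that `X ∧ f : X ∧ Y → X ∧ Y'` is not a stable equivalence.

The definitions of orthogonal spectra (as continuous functors on the category `O`), of their
maps, of the smash product (universal bimorphism, i.e. Day convolution) and of the stable homotopy
groups are in `Pool.Agent.H354R3.OS.Defs`.

* `X = Σ^∞ (ℕ ∪ {∞})`, the suspension spectrum of the one-point compactification of the discrete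
  space `ℕ`, based at `∞`.
* `Y(V) = ({t ∈ F : t > c(dim V)} × V)⁺` with `F = {-1, -1/2, -1/3, …} ∪ [0, ∞)`
  and `c(n) = -1/(n + 1/2)`, where `(-)⁺` is one-point compactification.
* `Y' = *`.

All stable homotopy groups of `Y` vanish: after finitely many stabilizations a given map
`S^{k+n} → Y(ℝⁿ)` avoids the zero section over the negative points, and then it can be pushed to
the base point. But `(X ∧ Y)(V) = (ℕ × {t ∈ F : t > c(dim V)} × V)⁺`, and the map
`S^1 → (X ∧ Y)(ℝ^1)` whose `i`-th component is the inclusion of the sphere over the `i`-th negative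
point in the `i`-th copy is never stably null-homotopic.
-/

namespace Pool.Agent.Results.MP_783066_gt.SmashNotHomotopical

open Pool.Agent.H354R3.OS

/-- the unique map out of the trivial spectrum -/
def fromTrivial (Z : OrthSpectrum) : Hom trivialSpec Z where
  toFun V _ := Z.pt V
  continuous _ := continuous_const
  map_pt _ := rfl
  map_act m _ := (Z.act_pt m).symm

/-- the trivial bimorphism -/
def trivialBimor (X : OrthSpectrum) : Bimor X trivialSpec trivialSpec where
  toFun _ _ _ _ := ()
  kcontinuous _ _ _ _ _ _ _ _ _ _ := continuous_const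
  map_pt_left _ := rfl
  map_pt_right _ := rfl
  map_act _ _ _ _ := rfl

/-- `X ∧ * = *` -/
theorem isSmash_trivialBimor (X : OrthSpectrum) : IsSmash (trivialBimor X) := by
  intro Z c
  refine ⟨fromTrivial Z, fun V W x y => ?_, fun h _ => ?_⟩
  · exact (c.map_pt_right x).symm
  · apply Hom.ext
    funext V x
    exact h.map_pt V

/-- The map `P → *` of the example is not a stable equivalence. -/
theorem not_stableEquiv_SP : ¬ StableEquiv (toTrivial SP) := by
  intro h
  apply not_subsingleton_pi_SP
  have h2 := subsingleton_pi_trivial 0
  exact ⟨fun a b => (h 0).1 (h2.elim _ _)⟩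

/-- The smash product of orthogonal spectra is not fully homotopical: there are an orthogonal
spectrum `X` and a stable equivalence `f : Y → Y'` of orthogonal spectra such that
`F = X ∧ f : X ∧ Y → X ∧ Y'` is not a stable equivalence. -/
theorem result :
    ∃ (X Y Y' : OrthSpectrum) (f : Hom Y Y'), StableEquiv f ∧
      ∃ (P P' : OrthSpectrum) (b : Bimor X Y P) (b' : Bimor X Y' P') (F : Hom P P'),
        IsSmash b ∧ IsSmash b' ∧
        (∀ (V W : IPS) (x : X.obj V) (y : Y.obj W),
          F.toFun (V.sum W) (b.toFun V W x y) = b'.toFun V W x (f.toFun W y)) ∧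
        ¬ StableEquiv F :=
  ⟨(Gate.free ℕ).spec, gF.spec, trivialSpec, toTrivial gF.spec, stableEquiv_toTrivial,
    SP, trivialSpec, mulBimor ℕ gF, trivialBimor _, toTrivial SP,
    isSmash_mulBimor ℕ gF, isSmash_trivialBimor _, fun _ _ _ _ => rfl, not_stableEquiv_SP⟩

end Pool.Agent.Results.MP_783066_gt.SmashNotHomotopical
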